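import Pool.Agent.W323.PT.Stm

/-!
# Project PT, part Mu
-/

set_option autoImplicit false

namespace Pool.Agent.W864.PT

open Pool.Agent.W323.PT

lemma exists_k (r : ℝ) (h0 : 0 ≤ r) (h1 : r < 1) :
    ∃ n : ℕ, 1 ≤ n ∧ ((n : ℝ) + 4) ^ 4 * r ^ n < 1 := by
  have h := tendsto_pow_const_mul_const_pow_of_abs_lt_one 4 (r := r)
    (by rw [abs_of_nonneg h0]; exact h1)
  have h2 := (h.eventually (gt_mem_nhds (show (0 : ℝ) < 1 / 625 by norm_num))).and
    (Filter.eventually_ge_atTop 1)
  obtain ⟨n, hn, hn1⟩ := h2.exists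
  refine ⟨n, hn1, ?_⟩
  have h3 : (n : ℝ) + 4 ≤ 5 * n := by
    have : (1 : ℝ) ≤ n := by exact_mod_cast hn1
    linarith
  calc ((n : ℝ) + 4) ^ 4 * r ^ n ≤ (5 * n) ^ 4 * r ^ n := by gcongr
    _ = 625 * ((n : ℝ) ^ 4 * r ^ n) := by ring
    _ < 1 := by linarith

lemma sum_split {N k : ℕ} (e : Fin 4 → Fin k) (F : (Fin 4 → Fin N) → Fin k → Fin N → ℝ) :
    ∑ g : Fin k → Fin N, ∏ t, F (g ∘ e) t (g t) =
      ∑ u : Fin 4 → Fin N, ∏ t,
        ∑ x ∈ Finset.univ.filter (fun x => ∀ s, e s = t → u s = x), F u t x := by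
  classical
  have h : ∀ u : Fin 4 → Fin N, ∏ t,
      ∑ x ∈ Finset.univ.filter (fun x => ∀ s, e s = t → u s = x), F u t x
      = ∑ g : Fin k → Fin N, if g ∘ e = u then ∏ t, F u t (g t) else 0 := by
    intro u
    rw [Finset.prod_univ_sum, ← Finset.sum_filter]
    refine Finset.sum_congr ?_ fun _ _ => rfl
    ext g
    simp only [Fintype.mem_piFinset, Finset.mem_filter, Finset.mem_univ, true_and]
    constructor
    · intro h
      funext s
      exact (h (e s) s rfl).symm
    · rintro rfl t s rfl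
      rfl
  rw [Finset.sum_congr rfl fun u _ => h u, Finset.sum_comm]
  refine Finset.sum_congr rfl fun g _ => ?_
  rw [Finset.sum_ite_eq]
  simp

lemma sample {N k : ℕ} (μ : Fin N → ℝ) (h0 : ∀ i, 0 ≤ μ i) (h1 : ∑ i, μ i = 1) (r : ℝ)
    (hr0 : 0 ≤ r) (hr1 : r ≤ 1) (P : (Fin 4 → Fin N) → Fin N → Prop)
    [∀ u x, Decidable (P u x)]
    (hP : ∀ u, ∑ x, (if P u x then μ x else 0) ≤ r) (e : Fin 4 → Fin k) :
    ∑ g : Fin k → Fin N, (∏ t, if P (g ∘ e) (g t) then μ (g t) else 0) ≤ r ^ (k - 4) := by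
  classical
  rw [sum_split e (fun u t x => if P u x then μ x else 0)]
  have hone : ∑ u : Fin 4 → Fin N, ∏ t : Fin k,
      ∑ x ∈ Finset.univ.filter (fun x => ∀ s, e s = t → u s = x), μ x = 1 := by
    rw [← sum_split e (fun _ _ x => μ x)]
    have := Finset.prod_univ_sum (fun _ : Fin k => (Finset.univ : Finset (Fin N)))
      (fun _ x => μ x)
    rw [Fintype.piFinset_univ] at this
    rw [← this, h1]
    simp
  set R : Finset (Fin k) := Finset.univ.image e with hR
  have hcard : k - 4 ≤ (Finset.univ.filter fun t : Fin k => t ∉ R).card := by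
    have h2 : R.card ≤ 4 := by
      refine le_trans Finset.card_image_le ?_
      simp
    have h3 : (Finset.univ.filter fun t : Fin k => t ∉ R) = Rᶜ := by
      ext t
      simp
    rw [h3, Finset.card_compl, Fintype.card_fin]
    omega
  have hle : ∀ u : Fin 4 → Fin N, ∏ t : Fin k,
      ∑ x ∈ Finset.univ.filter (fun x => ∀ s, e s = t → u s = x), (if P u x then μ x else 0) ≤
      r ^ (k - 4) * ∏ t : Fin k,
        ∑ x ∈ Finset.univ.filter (fun x => ∀ s, e s = t → u s = x), μ x := by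
    intro u
    have h4 : ∏ t : Fin k,
        ∑ x ∈ Finset.univ.filter (fun x => ∀ s, e s = t → u s = x), (if P u x then μ x else 0) ≤
        ∏ t : Fin k, ((if t ∉ R then r else 1) *
          ∑ x ∈ Finset.univ.filter (fun x => ∀ s, e s = t → u s = x), μ x) := by
      refine Finset.prod_le_prod (fun t _ => Finset.sum_nonneg fun x _ => ?_) fun t _ => ?_
      · split_ifs
        · exact h0 x
        · exact le_rfl
      · by_cases ht : t ∈ R
        · rw [if_neg (not_not.2 ht), one_mul]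
          refine Finset.sum_le_sum fun x _ => ?_
          split_ifs
          · exact le_rfl
          · exact h0 x
        · rw [if_pos ht]
          have h5 : (Finset.univ.filter (fun x => ∀ s, e s = t → u s = x)) = Finset.univ := by
            refine Finset.filter_true_of_mem fun x _ s hs => ?_
            exact absurd (Finset.mem_image.2 ⟨s, Finset.mem_univ _, hs⟩) ht
          rw [h5, h1, mul_one]
          exact hP u
    refine h4.trans ?_
    rw [Finset.prod_mul_distrib]
    refine mul_le_mul_of_nonneg_right ?_ (Finset.prod_nonneg fun t _ =>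
      Finset.sum_nonneg fun x _ => h0 x)
    rw [Finset.prod_ite, Finset.prod_const, Finset.prod_const_one, mul_one]
    exact pow_le_pow_of_le_one hr0 hr1 hcard
  calc _ ≤ ∑ u : Fin 4 → Fin N, r ^ (k - 4) * ∏ t : Fin k,
        ∑ x ∈ Finset.univ.filter (fun x => ∀ s, e s = t → u s = x), μ x :=
        Finset.sum_le_sum fun u _ => hle u
    _ = r ^ (k - 4) := by rw [← Finset.mul_sum, hone, mul_one]

/-- candidate for the members containing `u` -/
lemma cand_pos (hB : S_Basis) {N k : ℕ} (hk : 0 < k) (C : Fin N → Set Pt)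
    (hC : ∀ i, Convex ℝ (C i) ∧ IsCompact (C i) ∧ (C i).Nonempty)
    (cand : Fin N → Fin N → Pt) (hcand : ∀ i j, (C i ∩ C j).Nonempty → IsLexMin (C i ∩ C j) (cand i j))
    (g : Fin k → Fin N) (u : Pt) : ∃ a b : Fin k, ∀ t, u ∈ C (g t) → cand (g a) (g b) ∈ C (g t) := by
  classical
  set S : Finset (Fin k) := Finset.univ.filter fun t => u ∈ C (g t) with hS
  by_cases hne : S.Nonempty
  · have hn : 0 < S.card := Finset.card_pos.2 hne
    set f : Fin S.card ↪o Fin k := S.orderEmbOfFin rfl with hf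
    have hmem : ∀ i, u ∈ C (g (f i)) := by
      intro i
      have : f i ∈ S := Finset.orderEmbOfFin_mem S rfl i
      exact (Finset.mem_filter.1 this).2
    obtain ⟨i, j, hij⟩ := hB S.card (fun i => C (g (f i))) hn
      (fun i => ⟨(hC _).1, (hC _).2.1⟩) ⟨u, hmem⟩
    refine ⟨f i, f j, fun t ht => ?_⟩
    have h1 := hij (cand (g (f i)) (g (f j))) (hcand _ _ ⟨u, hmem i, hmem j⟩)
    have h2 : t ∈ Set.range f := by
      rw [hf, Finset.range_orderEmbOfFin]
      exact Finset.mem_filter.2 ⟨Finset.mem_univ _, ht⟩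
    obtain ⟨l, rfl⟩ := h2
    exact h1 l
  · refine ⟨⟨0, hk⟩, ⟨0, hk⟩, fun t ht => ?_⟩
    exact absurd ⟨t, Finset.mem_filter.2 ⟨Finset.mem_univ _, ht⟩⟩ hne

theorem mu : S_Lex → S_Basis → S_Mu := by
  classical
  intro _ hB δ hδ
  set r : ℝ := 1 - min δ 1 with hr
  have hr0 : 0 ≤ r := by
    have := min_le_right δ 1
    linarith
  have hr1 : r < 1 := by
    have := lt_min hδ one_pos
    linarith
  obtain ⟨n, hn, hlt⟩ := exists_k r hr0 hr1
  refine ⟨n + 4, by omega, ?_⟩
  intro N C hC hloc cand hcand μ h0 h1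
  by_contra hcon
  push Not at hcon
  let P : (Fin 4 → Fin N) → Fin N → Prop := fun u x =>
    cand (u 0) (u 1) ∈ C x ∨ cand (u 2) (u 3) ∈ C x
  have hP : ∀ u, ∑ x, (if P u x then μ x else 0) ≤ r := by
    intro u
    have h2 := hcon (u 0) (u 1) (u 2) (u 3)
    have h3 : ∑ x, (if P u x then μ x else 0) +
        mass μ (fun t => cand (u 0) (u 1) ∉ C t ∧ cand (u 2) (u 3) ∉ C t) = 1 := by
      rw [← h1]
      unfold mass
      rw [← Finset.sum_add_distrib]
      refine Finset.sum_congr rfl fun x _ => ?_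
      by_cases h : P u x
      · rw [if_pos h, if_neg, add_zero]
        rintro ⟨h4, h5⟩
        rcases h with h | h
        · exact h4 h
        · exact h5 h
      · rw [if_neg h, if_pos, zero_add]
        exact ⟨fun h4 => h (Or.inl h4), fun h4 => h (Or.inr h4)⟩
    have h4 := min_le_left δ 1
    linarith
  have hex : ∀ g : Fin (n + 4) → Fin N, ∃ e : Fin 4 → Fin (n + 4), ∀ t, P (g ∘ e) (g t) := by
    intro g
    obtain ⟨u, v, huv⟩ := hloc (Finset.univ.image g)
      (le_trans Finset.card_image_le (by simp))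
    obtain ⟨a, b, hab⟩ := cand_pos hB (by omega) C hC cand hcand g u
    obtain ⟨c, d, hcd⟩ := cand_pos hB (by omega) C hC cand hcand g v
    refine ⟨![a, b, c, d], fun t => ?_⟩
    rcases huv (g t) (Finset.mem_image.2 ⟨t, Finset.mem_univ _, rfl⟩) with h | h
    · left
      exact hab t h
    · right
      exact hcd t h
  have hW : ∑ g : Fin (n + 4) → Fin N, ∏ t, μ (g t) = 1 := by
    have := Finset.prod_univ_sum (fun _ : Fin (n + 4) => (Finset.univ : Finset (Fin N)))
      (fun _ x => μ x)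
    rw [Fintype.piFinset_univ] at this
    rw [← this, h1]
    simp
  have hmain : (1 : ℝ) ≤ ∑ e : Fin 4 → Fin (n + 4), r ^ (n + 4 - 4) := by
    calc (1 : ℝ) = ∑ g : Fin (n + 4) → Fin N, ∏ t, μ (g t) := hW.symm
      _ ≤ ∑ g : Fin (n + 4) → Fin N, ∑ e : Fin 4 → Fin (n + 4),
          (∏ t, if P (g ∘ e) (g t) then μ (g t) else 0) := by
        refine Finset.sum_le_sum fun g _ => ?_
        obtain ⟨e, he⟩ := hex g
        refine le_trans (le_of_eq ?_) (Finset.single_le_sum (f := fun e : Fin 4 → Fin (n + 4) =>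
          (∏ t, if P (g ∘ e) (g t) then μ (g t) else 0)) (fun e' _ => ?_) (Finset.mem_univ e))
        · refine Finset.prod_congr rfl fun t _ => ?_
          rw [if_pos (he t)]
        · refine Finset.prod_nonneg fun t _ => ?_
          split_ifs
          · exact h0 _
          · exact le_rfl
      _ = ∑ e : Fin 4 → Fin (n + 4), ∑ g : Fin (n + 4) → Fin N,
          (∏ t, if P (g ∘ e) (g t) then μ (g t) else 0) := Finset.sum_comm
      _ ≤ ∑ e : Fin 4 → Fin (n + 4), r ^ (n + 4 - 4) :=
        Finset.sum_le_sum fun e _ => sample μ h0 h1 r hr0 hr1.le P hP e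
  rw [Finset.sum_const, Finset.card_univ, Fintype.card_fun, Fintype.card_fin, Fintype.card_fin,
    nsmul_eq_mul, Nat.add_sub_cancel] at hmain
  push_cast at hmain
  linarith

end Pool.Agent.W864.PT
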